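import Mathlib
import Pool.Agent.T9h34.Q.Spec

/-!
Piece (D2) StRot for helper34 (MP_8a52c3_lc): rotation of the choices.

Author: helper69.
-/

set_option autoImplicit false

namespace Pool.Agent.T9h69.QC

open Finset Pool.Agent.T9h34.Q

section

variable {V : Type} {B d m j : ℕ}

/-- all data -/
abbrev Dat (V : Type) (B d m j : ℕ) : Type :=
  (Fin j → V) × (Fin j → Ix B d m → V) × (Ix B d m → Packet V B d m)

/-- the names of the independent vertices -/
abbrev Coord (B d m j : ℕ) : Type := Fin j ⊕ (Fin j × Ix B d m) ⊕ (Ix B d m × Option (Rt B d m))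

/-- the data as one function -/
def EE (V : Type) (B d m j : ℕ) : Dat V B d m j ≃ (Coord B d m j → V) where
  toFun x := Sum.elim x.1 (Sum.elim (fun p => x.2.1 p.1 p.2) (fun p => x.2.2 p.1 p.2))
  invFun X := (fun i => X (Sum.inl i), fun i b => X (Sum.inr (Sum.inl (i, b))),
    fun b r => X (Sum.inr (Sum.inr (b, r))))
  left_inv _ := rfl
  right_inv X := by
    funext c
    rcases c with i | p | p <;> rfl

variable (C : Finset (Fin j)) (par : Fin j → Fin j) (a : Fin B) (hj : j ≤ d)

/-- the positions in the orbits -/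
abbrev Orb (B d m j : ℕ) (C : Finset (Fin j)) (a : Fin B) : Type :=
  ({i : Fin j // i ∈ C} × Option {b : Ix B d m // b.1 < a} × Fin (m + 1)) ⊕
    ({w : Fin j // w ∉ C} × Fin (m + 1) × Fin (m + 1))

/-- the position of an orbit as a coordinate -/
def emb : Orb B d m j C a → Coord B d m j
  | Sum.inl (i, none, t) => Fin.cases (motive := fun _ => Coord B d m j) (Sum.inl i.1)
      (fun l => Sum.inr (Sum.inr ((a, Fin.castLE hj i.1, l), none))) t
  | Sum.inl (i, some b, t) => Fin.cases (motive := fun _ => Coord B d m j)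
      (Sum.inr (Sum.inl (i.1, b.1)))
      (fun l => Sum.inr (Sum.inr ((a, Fin.castLE hj i.1, l), some (Sum.inl b.1)))) t
  | Sum.inr (w, s, t) => Fin.cases (motive := fun _ => Coord B d m j)
      (Fin.cases (motive := fun _ => Coord B d m j) (Sum.inl w.1)
        (fun r => Sum.inr (Sum.inl (par w.1, (a, Fin.castLE hj w.1, r)))) t)
      (fun l => Sum.inr (Sum.inr ((a, Fin.castLE hj (par w.1), l),
        some (Sum.inr (Fin.castLE hj w.1, t))))) s

theorem castLE_inj {x y : Fin j} (h : Fin.castLE hj x = Fin.castLE hj y) : x = y :=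
  Fin.castLE_injective hj h

theorem emb_inj : Function.Injective (emb (d := d) (m := m) C par a hj) := by
  rintro (⟨⟨i, hi⟩, _ | ⟨b, hb⟩, t⟩ | ⟨⟨w, hw⟩, s, t⟩) (⟨⟨i', hi'⟩, _ | ⟨b', hb'⟩, t'⟩ | ⟨⟨w', hw'⟩, s', t'⟩) h
  · revert h
    refine Fin.cases ?_ (fun l => ?_) t <;> refine Fin.cases ?_ (fun l' => ?_) t' <;> intro h <;>
      simp_all [emb]
  · revert h
    refine Fin.cases ?_ (fun l => ?_) t <;> refine Fin.cases ?_ (fun l' => ?_) t' <;> intro h <;>
      simp_all [emb]
  · revert h
    refine Fin.cases ?_ (fun l => ?_) t <;> refine Fin.cases ?_ (fun l' => ?_) t' <;>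
      refine Fin.cases ?_ (fun l'' => ?_) s' <;> intro h <;> simp_all [emb] <;>
      (subst h; exact hw' hi)
  · revert h
    refine Fin.cases ?_ (fun l => ?_) t <;> refine Fin.cases ?_ (fun l' => ?_) t' <;> intro h <;>
      simp_all [emb]
  · revert h
    refine Fin.cases ?_ (fun l => ?_) t <;> refine Fin.cases ?_ (fun l' => ?_) t' <;> intro h <;>
      simp_all [emb]
  · revert h
    refine Fin.cases ?_ (fun l => ?_) t <;> refine Fin.cases ?_ (fun l' => ?_) t' <;>
      refine Fin.cases ?_ (fun l'' => ?_) s' <;> intro h <;> simp_all [emb] <;>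
      (obtain ⟨_, rfl⟩ := h; exact lt_irrefl _ hb)
  · revert h
    refine Fin.cases ?_ (fun l => ?_) t <;> refine Fin.cases ?_ (fun l' => ?_) t' <;>
      refine Fin.cases ?_ (fun l'' => ?_) s <;> intro h <;> simp_all [emb] <;>
      (subst h; exact hw hi')
  · revert h
    refine Fin.cases ?_ (fun l => ?_) t <;> refine Fin.cases ?_ (fun l' => ?_) t' <;>
      refine Fin.cases ?_ (fun l'' => ?_) s <;> intro h <;> simp_all [emb] <;>
      (obtain ⟨_, rfl⟩ := h; exact lt_irrefl _ hb')
  · revert h
    refine Fin.cases ?_ (fun l => ?_) t <;> refine Fin.cases ?_ (fun l' => ?_) t' <;>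
      refine Fin.cases ?_ (fun l'' => ?_) s <;> refine Fin.cases ?_ (fun l''' => ?_) s' <;>
        intro h <;> simp_all [emb]

/-- rotation of the orbits -/
def rot (g : Fin j → Fin (m + 1)) : Equiv.Perm (Orb B d m j C a) where
  toFun
    | Sum.inl (i, o, t) => Sum.inl (i, o, t + g i.1)
    | Sum.inr (w, s, t) => Sum.inr (w, s + g (par w.1), t + g w.1)
  invFun
    | Sum.inl (i, o, t) => Sum.inl (i, o, t - g i.1)
    | Sum.inr (w, s, t) => Sum.inr (w, s - g (par w.1), t - g w.1)
  left_inv := by
    rintro (⟨i, o, t⟩ | ⟨w, s, t⟩) <;> simp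
  right_inv := by
    rintro (⟨i, o, t⟩ | ⟨w, s, t⟩) <;> simp

open Classical in
/-- the permutation of the coordinates -/
noncomputable def pim (g : Fin j → Fin (m + 1)) : Equiv.Perm (Coord B d m j) :=
  (rot C par a g).viaEmbedding ⟨emb (d := d) (m := m) C par a hj, emb_inj C par a hj⟩

theorem pim_emb (g : Fin j → Fin (m + 1)) (o : Orb B d m j C a) :
    pim C par a hj g (emb C par a hj o) = emb C par a hj (rot C par a g o) :=
  Equiv.Perm.viaEmbedding_apply _ ⟨emb (d := d) (m := m) C par a hj, emb_inj C par a hj⟩ o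

theorem pim_of (g : Fin j → Fin (m + 1)) (c : Coord B d m j)
    (h : ∀ o, emb C par a hj o ≠ c) : pim C par a hj g c = c :=
  Equiv.Perm.viaEmbedding_apply_of_notMem _ _ c (by
    rintro ⟨o, ho⟩
    exact h o ho)

/-- the action on the data -/
noncomputable def tau (V : Type) (g : Fin j → Fin (m + 1)) : Equiv.Perm (Dat V B d m j) where
  toFun x := (EE V B d m j).symm (EE V B d m j x ∘ pim C par a hj g)
  invFun x := (EE V B d m j).symm (EE V B d m j x ∘ (pim C par a hj g).symm)
  left_inv x := by
    dsimp only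
    rw [Equiv.apply_symm_apply, Function.comp_assoc, Equiv.self_comp_symm, Function.comp_id,
      Equiv.symm_apply_apply]
  right_inv x := by
    dsimp only
    rw [Equiv.apply_symm_apply, Function.comp_assoc, Equiv.symm_comp_self, Function.comp_id,
      Equiv.symm_apply_apply]

theorem EE_tau (g : Fin j → Fin (m + 1)) (x : Dat V B d m j) (c : Coord B d m j) :
    EE V B d m j (tau C par a hj V g x) c = EE V B d m j x (pim C par a hj g c) := by
  unfold tau
  simp only [Equiv.coe_fn_mk, Equiv.apply_symm_apply, Function.comp_apply]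

theorem selC_eq (x : Dat V B d m j) (g : Fin j → Fin (m + 1)) (i : Fin j) (hi : i ∈ C) :
    selC x.1 x.2.2 a hj g i =
      EE V B d m j x (emb C par a hj (Sum.inl (⟨i, hi⟩, none, g i))) := by
  unfold selC emb
  generalize g i = t
  refine Fin.cases ?_ (fun l => ?_) t
  · rfl
  · simp [EE]

theorem selM_eq (x : Dat V B d m j) (g : Fin j → Fin (m + 1)) (i : Fin j) (hi : i ∈ C)
    (b : Ix B d m) (hb : b.1 < a) :
    selM x.2.1 x.2.2 a hj g i b =
      EE V B d m j x (emb C par a hj (Sum.inl (⟨i, hi⟩, some ⟨b, hb⟩, g i))) := by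
  unfold selM emb
  generalize g i = t
  refine Fin.cases ?_ (fun l => ?_) t
  · rfl
  · simp [EE]

theorem selL_eq (x : Dat V B d m j) (g : Fin j → Fin (m + 1)) (w : Fin j) (hw : w ∉ C) :
    selL x.1 x.2.1 x.2.2 a hj par g w =
      EE V B d m j x (emb C par a hj (Sum.inr (⟨w, hw⟩, g (par w), g w))) := by
  unfold selL emb
  generalize g (par w) = s
  generalize g w = t
  refine Fin.cases ?_ (fun l => ?_) s
  · refine Fin.cases ?_ (fun r => ?_) t
    · rfl
    · simp [EE]
  · simp [EE]

theorem pk_tau (g : Fin j → Fin (m + 1)) (x : Dat V B d m j) (i : Ix B d m) (hi : i.1 < a) :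
    (tau C par a hj V g x).2.2 i = x.2.2 i := by
  funext r
  have h := EE_tau C par a hj g x (Sum.inr (Sum.inr (i, r)))
  rw [pim_of] at h
  · exact h
  · rintro (⟨i', _ | b', t'⟩ | ⟨w', s', t'⟩) h
    · revert h
      refine Fin.cases ?_ (fun l' => ?_) t' <;> intro h
      · simp [emb] at h
      · simp only [emb, Fin.cases_succ, Sum.inr.injEq, Prod.mk.injEq] at h
        obtain ⟨rfl, -⟩ := h
        exact lt_irrefl _ hi
    · revert h
      refine Fin.cases ?_ (fun l' => ?_) t' <;> intro h
      · simp [emb] at h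
      · simp only [emb, Fin.cases_succ, Sum.inr.injEq, Prod.mk.injEq] at h
        obtain ⟨rfl, -⟩ := h
        exact lt_irrefl _ hi
    · revert h
      refine Fin.cases ?_ (fun l' => ?_) s' <;> intro h
      · revert h
        refine Fin.cases ?_ (fun l' => ?_) t' <;> intro h <;> simp [emb] at h
      · simp only [emb, Fin.cases_succ, Sum.inr.injEq, Prod.mk.injEq] at h
        obtain ⟨rfl, -⟩ := h
        exact lt_irrefl _ hi

theorem val_tau [DecidableEq V] (h : Finset (Sym2 V) → ℝ) (G : Finset (Sym2 V))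
    (A : Finset (Fin j)) (hA : A ⊆ C) (hpar : ∀ w ∉ C, par w ∈ C)
    (g g' : Fin j → Fin (m + 1)) (x : Dat V B d m j) :
    val h G (tau C par a hj V g' x).1 (tau C par a hj V g' x).2.1 (tau C par a hj V g' x).2.2
      a hj C A par g = val h G x.1 x.2.1 x.2.2 a hj C A par (g + g') := by
  have hC : ∀ i ∈ C, selC (tau C par a hj V g' x).1 (tau C par a hj V g' x).2.2 a hj g i =
      selC x.1 x.2.2 a hj (g + g') i := by
    intro i hi
    rw [selC_eq C par a hj _ g i hi, selC_eq C par a hj x (g + g') i hi, EE_tau, pim_emb]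
    rfl
  have hM : ∀ i ∈ C, ∀ b : Ix B d m, b.1 < a →
      selM (tau C par a hj V g' x).2.1 (tau C par a hj V g' x).2.2 a hj g i b =
      selM x.2.1 x.2.2 a hj (g + g') i b := by
    intro i hi b hb
    rw [selM_eq C par a hj _ g i hi b hb, selM_eq C par a hj x (g + g') i hi b hb, EE_tau, pim_emb]
    rfl
  have hL : ∀ w, w ∉ C →
      selL (tau C par a hj V g' x).1 (tau C par a hj V g' x).2.1 (tau C par a hj V g' x).2.2
        a hj par g w = selL x.1 x.2.1 x.2.2 a hj par (g + g') w := by
    intro w hw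
    rw [selL_eq C par a hj _ g w hw, selL_eq C par a hj x (g + g') w hw, EE_tau, pim_emb]
    rfl
  unfold Pool.Agent.T9h34.Q.val conf
  congr 1
  congr 1
  · congr 1
    · congr 1
      refine Finset.biUnion_congr rfl fun i hi => ?_
      rw [pk_tau C par a hj g' x i]
      simpa [ixBelow] using hi
    · refine Finset.biUnion_congr rfl fun i hi => ?_
      refine Finset.image_congr fun b hb => ?_
      have hb' : b.1 < a := by simpa [ixBelow] using hb
      rw [hC i (hA hi), hM i (hA hi) b hb']
  · refine Finset.image_congr fun w hw => ?_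
    have hw' : w ∉ C := by simpa using hw
    rw [hC _ (hpar w hw'), hL w hw']

end

theorem stRot : StUnique → StRot := by
  intro hU V _ _ B d m j a hj h G C A par hA hpar
  have := hU (Fin j → Fin (m + 1)) (Dat V B d m j)
    (fun g x => val h G x.1 x.2.1 x.2.2 a hj C A par g) (fun g => tau C par a hj V g)
    (fun g g' x => val_tau C par a hj h G A hA hpar g g' x)
  rw [Nat.card_fun, Nat.card_fin, Nat.card_fin] at this
  exact this

end Pool.Agent.T9h69.QC
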