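import Mathlib
import Pool.Agent.T9h34.Q.Spec3
import Pool.Agent.T9h69.QC.Rot

/-!
Piece (D2') StRotB for helper34 (MP_8a52c3_lc): rotation of the choices, sharp form.

Author: helper69.
-/

set_option autoImplicit false

namespace Pool.Agent.T9h69.QC

open Finset Pool.Agent.T9h34.Q

section

variable {V : Type} [DecidableEq V] {B d m j : ℕ}

theorem star_mem (pk : Ix B d m → Packet V B d m) (a : Fin B) (i : Ix B d m) (hi : i.1 = a)
    (r : Rt B d m) (φ : Fin j → V) (N : Fin j → Ix B d m → V) (C : Finset (Fin j))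
    (par : Fin j → Fin j) :
    s(pk i none, pk i (some r)) ∈ allG φ N pk a C par := by
  unfold allG
  refine mem_union_left _ (mem_union_left _ ?_)
  rw [mem_biUnion]
  refine ⟨i, by simp [hi], ?_⟩
  unfold Pool.Agent.T9h34.Q.star
  exact mem_image_of_mem _ (mem_univ r)

theorem conf_sub (G : Finset (Sym2 V)) (x : Dat V B d m j) (a : Fin B) (hj : j ≤ d)
    (C A : Finset (Fin j)) (par : Fin j → Fin j) (hA : A ⊆ C) (hpar : ∀ w ∉ C, par w ∈ C)
    (g : Fin j → Fin (m + 1)) :
    conf (G ∪ (ixBelow B d m a).biUnion (fun i => star (x.2.2 i))) a C A par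
      (selC x.1 x.2.2 a hj g) (selM x.2.1 x.2.2 a hj g) (selL x.1 x.2.1 x.2.2 a hj par g) ⊆
      baseG G x.2.2 a ∪ allG x.1 x.2.1 x.2.2 a C par := by
  unfold conf
  refine union_subset (union_subset ?_ ?_) ?_
  · exact subset_union_left
  · refine (biUnion_subset.2 fun i hi => ?_).trans subset_union_right
    intro e he
    rw [mem_image] at he
    obtain ⟨b, -, rfl⟩ := he
    unfold selC selM
    generalize g i = t
    refine Fin.cases ?_ (fun l => ?_) t
    · unfold allG
      refine mem_union_left _ (mem_union_right _ ?_)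
      rw [mem_biUnion]
      exact ⟨i, hA hi, mem_image_of_mem _ (mem_univ b)⟩
    · exact star_mem x.2.2 a (a, Fin.castLE hj i, l) rfl (Sum.inl b) x.1 x.2.1 C par
  · intro e he
    rw [mem_image] at he
    obtain ⟨w, hw, rfl⟩ := he
    have hw' : w ∉ C := by simpa using hw
    refine mem_union_right _ ?_
    unfold selC selL
    generalize g (par w) = s
    refine Fin.cases ?_ (fun l => ?_) s
    · generalize g w = t
      refine Fin.cases ?_ (fun r => ?_) t
      · unfold allG
        exact mem_union_right _ (mem_image_of_mem _ hw)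
      · unfold allG
        refine mem_union_left _ (mem_union_right _ ?_)
        rw [mem_biUnion]
        exact ⟨par w, hpar w hw', mem_image_of_mem _ (mem_univ _)⟩
    · exact star_mem x.2.2 a (a, Fin.castLE hj (par w), l) rfl
        (Sum.inr (Fin.castLE hj w, g w)) x.1 x.2.1 C par

end

theorem stRotB : StUniqueB → StRotB := by
  intro hU V _ _ B d m j a hj h hmono G C A par hA hpar hj1 hm1
  have key := hU (Fin j → Fin (m + 1)) (Dat V B d m j)
    (fun g x => val h G x.1 x.2.1 x.2.2 a hj C A par g) (fun g => tau C par a hj V g)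
    (fun g g' x => val_tau C par a hj h G A hA hpar g g' x)
  rw [Nat.card_fun, Nat.card_fin, Nat.card_fin] at key
  refine key.trans ?_
  refine Nat.card_le_card_of_injective
    (f := fun x : {x : Dat V B d m j // ∃ g', ∀ g, g ≠ g' →
      val h G x.1 x.2.1 x.2.2 a hj C A par g < val h G x.1 x.2.1 x.2.2 a hj C A par g'} =>
      (⟨x.1, ?_⟩ : {x : Dat V B d m j //
        h (baseG G x.2.2 a) < h (baseG G x.2.2 a ∪ allG x.1 x.2.1 x.2.2 a C par)})) ?_
  · obtain ⟨x, g', hg'⟩ := x
    have hne : ∃ g : Fin j → Fin (m + 1), g ≠ g' := by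
      refine ⟨fun i => g' i + 1, fun hc => ?_⟩
      have h1 := congrFun hc ⟨0, hj1⟩
      have h2 : (1 : Fin (m + 1)) = 0 := by
        have := add_left_cancel (a := g' ⟨0, hj1⟩) (b := 1) (c := 0) (by rw [add_zero]; exact h1)
        exact this
      have h3 := congrArg Fin.val h2
      rw [Fin.val_one', Fin.val_zero, Nat.mod_eq_of_lt (by omega)] at h3
      omega
    obtain ⟨g, hg⟩ := hne
    have h1 := hg' g hg
    have h2 : h (baseG G x.2.2 a) ≤ val h G x.1 x.2.1 x.2.2 a hj C A par g := by
      refine hmono ?_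
      unfold conf baseG
      exact subset_union_left.trans subset_union_left
    have h3 : val h G x.1 x.2.1 x.2.2 a hj C A par g' ≤
        h (baseG G x.2.2 a ∪ allG x.1 x.2.1 x.2.2 a C par) :=
      hmono (conf_sub G x a hj C A par hA hpar g')
    exact lt_of_le_of_lt h2 (lt_of_lt_of_le h1 h3)
  · intro x y hxy
    have := congrArg (fun z => z.1) hxy
    exact Subtype.ext this

end Pool.Agent.T9h69.QC
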